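import Pool.Agent.H940R3.ZB.Task4
import Pool.Agent.H940R3.ZB.Task5
import Pool.Agent.H940R3.ZB.Task6
import Pool.Agent.H940R3.ZB.Task7
import Pool.Agent.H940R3.ZB.Task11
import Pool.Agent.H940R3.ZB.Task12

/-! Zaharjuta's theorem for an arbitrary compact set: Chebyshev constants (adapted from the Task 11 file
of the H716BM project, which treats the case where the extremal function is bounded). -/

set_option autoImplicit false

open MeasureTheory Filter Topology

namespace Pool.Agent.H940R3.Zah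

open ZB ZB.Task11 MvPolynomial

lemma TT_nonneg {n : ℕ} {K : Set (Fin n → ℂ)} (α : Fin n → ℕ) : 0 ≤ TT K α :=
  Real.sInf_nonneg fun _ h => h.1

lemma submul' {n : ℕ} {K : Set (Fin n → ℂ)} (α β : Fin n → ℕ) (hα : (ZB.Task11.SS K α).Nonempty)
    (hβ : (ZB.Task11.SS K β).Nonempty) :
    TT K (α + β) ≤ TT K α * TT K β := by
  have h1 : ∀ M ∈ ZB.Task11.SS K α, ∀ M' ∈ ZB.Task11.SS K β, TT K (α + β) ≤ M * M' :=
    fun M hM M' hM' => csInf_le (SS_bddBelow K _) (SS_mul hM hM')
  have h2 : ∀ M' ∈ ZB.Task11.SS K β, TT K (α + β) ≤ TT K α * M' := by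
    intro M' hM'
    rcases hM'.1.eq_or_lt with h0 | hpos
    · obtain ⟨M, hM⟩ := hα
      have := h1 M hM M' hM'
      rw [← h0] at this ⊢
      simpa using this
    · rw [← div_le_iff₀ hpos]
      apply le_csInf hα
      intro M hM
      rw [div_le_iff₀ hpos]
      exact h1 M hM M' hM'
  rcases (TT_nonneg (K := K) α).eq_or_lt with h0 | hpα
  · obtain ⟨M', hM'⟩ := hβ
    have := h2 M' hM'
    rw [← h0] at this ⊢
    simpa using this
  rw [mul_comm, ← div_le_iff₀ hpα]
  apply le_csInf hβ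
  intro M' hM'
  rw [div_le_iff₀ hpα, mul_comm]
  exact h2 M' hM'

lemma TT_zero {n : ℕ} {K : Set (Fin n → ℂ)} (hKn : K.Nonempty)
    (h0 : (ZB.Task11.SS K (0 : Fin n → ℕ)).Nonempty) : 1 ≤ TT K (0 : Fin n → ℕ) := by
  apply le_csInf h0
  rintro M ⟨hM0, p, hp, hpM⟩
  obtain ⟨x, hx⟩ := hKn
  have h1 : p.totalDegree = 0 := by
    have := hp.totalDegree
    simpa using this
  rw [MvPolynomial.totalDegree_eq_zero_iff_eq_C] at h1
  have h2 := hp.1
  have h3 : fs (0 : Fin n → ℕ) = 0 := by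
    ext i
    simp
  rw [h3] at h2
  rw [h2] at h1
  have h4 := hpM x hx
  rw [h1] at h4
  simpa using h4

theorem t11gen {n : ℕ} {K : Set (Fin n → ℂ)} (hK : IsCompact K) (hKn : K.Nonempty) :
    (∀ α : Fin n → ℕ, 0 ≤ TT K α) ∧ 1 ≤ TT K (0 : Fin n → ℕ) ∧
    (∀ α β : Fin n → ℕ, TT K (α + β) ≤ TT K α * TT K β) ∧
    (∃ R : ℝ, 0 ≤ R ∧ ∀ α : Fin n → ℕ, TT K α ≤ Real.exp (R * ∑ i, (α i : ℝ))) ∧
    ∀ k : ℕ,
      (∃ z : I n k → (Fin n → ℂ), (∀ a, z a ∈ K) ∧
        ∏ b : I n k, TT K (fun i => (b.1 i : ℕ)) ≤ ‖Matrix.det (E z)‖) ∧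
      (∀ z : I n k → (Fin n → ℂ), (∀ a, z a ∈ K) →
        ‖Matrix.det (E z)‖ ≤ ((Fintype.card (I n k)).factorial : ℝ) *
          ∏ b : I n k, TT K (fun i => (b.1 i : ℕ))) := by
  have h4 : T4 := task4
  have h5 : T5 := task5
  obtain ⟨C, hC⟩ := hK.isBounded.exists_norm_le
  have hR : ∀ x ∈ K, ∀ i, ‖x i‖ ≤ Real.exp (max C 0) := by
    intro x hx i
    have h1 := norm_le_pi_norm x i
    have h2 := hC x hx
    have h3 := Real.add_one_le_exp (max C 0)
    have h4 := le_max_left C 0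
    linarith
  have hmem : ∀ α : Fin n → ℕ, Real.exp ((max C 0) * ∑ i, (α i : ℝ)) ∈ ZB.Task11.SS K α :=
    upper hR
  have hne : ∀ α : Fin n → ℕ, (ZB.Task11.SS K α).Nonempty := fun α => ⟨_, hmem α⟩
  refine ⟨TT_nonneg, TT_zero hKn (hne 0), fun α β => submul' α β (hne α) (hne β),
    ⟨max C 0, le_max_right _ _, fun α => csInf_le (SS_bddBelow K α) (hmem α)⟩, ?_⟩
  intro k
  obtain ⟨e, he⟩ := exists_enum n k
  obtain ⟨N, hN⟩ : ∃ N, N = Fintype.card (I n k) := ⟨_, rfl⟩
  let φ : ℕ → (Fin n → ℂ) → ℂ := fun i x =>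
    if h : i < Fintype.card (I n k) then ∏ l, x l ^ ex (e ⟨i, h⟩) l else 0
  have hφ : ∀ (j : Fin (Fintype.card (I n k))) x, φ j x = ∏ l, x l ^ ex (e j) l := by
    intro j x
    simp only [φ, dif_pos j.2]
  have hdet : ∀ z : I n k → (Fin n → ℂ), Matrix.det (E z) =
      Matrix.det (Matrix.of fun a b : Fin (Fintype.card (I n k)) => φ b (z (e a))) := by
    intro z
    rw [← Matrix.det_submatrix_equiv_self e (E z)]
    congr 1
    ext a b
    rw [Matrix.submatrix_apply, Matrix.of_apply, hφ]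
    rfl
  have hprod : ∀ F : I n k → ℝ, ∀ τ : ℕ → ℝ, (∀ j : Fin (Fintype.card (I n k)), τ j = F (e j)) →
      ∏ i ∈ Finset.range (Fintype.card (I n k)), τ i = ∏ b : I n k, F b := by
    intro F τ hτ
    rw [Finset.prod_range, ← Equiv.prod_comp e]
    exact Finset.prod_congr rfl fun j _ => hτ j
  constructor
  · -- existence
    let τ : ℕ → ℝ := fun i => if h : i < Fintype.card (I n k) then TT K (ex (e ⟨i, h⟩)) else 0
    have hτ : ∀ j : Fin (Fintype.card (I n k)), τ j = TT K (ex (e j)) := by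
      intro j
      simp only [τ, dif_pos j.2]
    have hτ0 : ∀ i, 0 ≤ τ i := by
      intro i
      simp only [τ]
      split_ifs
      · exact TT_nonneg _
      · exact le_rfl
    obtain ⟨x, hxK, hx⟩ := h4 (Fin n → ℂ) K φ τ (Fintype.card (I n k)) hKn hτ0 (by
      intro i hi c
      obtain ⟨p, hp, hpe⟩ := exists_mon e he ⟨i, hi⟩ (fun j => c j)
      obtain ⟨x, hx, hle⟩ := TT_le hK hKn hp
      refine ⟨x, hx, ?_⟩
      have e1 : φ i x + ∑ j ∈ Finset.range i, c j * φ j x = eval x p := by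
        rw [hpe x]
        have e2 := sum_range_fin (⟨i, hi⟩ : Fin (Fintype.card (I n k))) (fun j => c j * φ j x)
        have e3 := hφ ⟨i, hi⟩ x
        simp only at e2 e3
        rw [e2, e3]
        congr 1
        exact Finset.sum_congr rfl fun j _ => by rw [hφ]
      rw [e1]
      have e4 := hτ ⟨i, hi⟩
      simp only at e4
      rw [e4]
      exact hle)
    refine ⟨fun a => x (e.symm a), fun a => hxK _, ?_⟩
    change ∏ b : I n k, TT K (ex b) ≤ _
    rw [hdet, ← hprod (fun b => TT K (ex b)) τ hτ]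
    simp only [Equiv.symm_apply_apply]
    exact hx
  · -- upper bound
    intro z hz
    have key : ∀ ε : ℝ, 0 < ε → ‖Matrix.det (E z)‖ ≤ ((Fintype.card (I n k)).factorial : ℝ) *
        ∏ b : I n k, (TT K (ex b) + ε) := by
      intro ε hε
      have hex : ∀ i : Fin (Fintype.card (I n k)), ∃ p : MvPolynomial (Fin n) ℂ,
          Mon (ex (e i)) p ∧ ∀ x ∈ K, ‖eval x p‖ ≤ TT K (ex (e i)) + ε := by
        intro i
        obtain ⟨M, ⟨_, p, hp, hpM⟩, hM⟩ := exists_lt_of_csInf_lt (hne (ex (e i)))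
          (lt_add_of_pos_right (TT K (ex (e i))) hε)
        exact ⟨p, hp, fun x hx => (hpM x hx).trans hM.le⟩
      choose p hp hpM using hex
      let c : ℕ → ℕ → ℂ := fun i j => if h : i < Fintype.card (I n k) ∧ j < Fintype.card (I n k)
        then (p ⟨i, h.1⟩).coeff (fs (ex (e ⟨j, h.2⟩))) else 0
      let τ : ℕ → ℝ := fun i => if h : i < Fintype.card (I n k) then TT K (ex (e ⟨i, h⟩)) + ε else 0
      have hτ : ∀ j : Fin (Fintype.card (I n k)), τ j = TT K (ex (e j)) + ε := by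
        intro j
        simp only [τ, dif_pos j.2]
      have hc : ∀ i j : Fin (Fintype.card (I n k)), c i j = (p i).coeff (fs (ex (e j))) := by
        intro i j
        simp only [c, dif_pos (And.intro i.2 j.2)]
      rw [hdet, ← hprod (fun b => TT K (ex b) + ε) τ hτ]
      refine h5 (Fin n → ℂ) K φ τ c (Fintype.card (I n k)) ?_ (fun a => z (e a))
        (fun a => hz _)
      intro i hi x hx
      have e1 : φ i x + ∑ j ∈ Finset.range i, c i j * φ j x = eval x (p ⟨i, hi⟩) := by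
        rw [eval_enum e he ⟨i, hi⟩ (hp ⟨i, hi⟩) x]
        have e2 := sum_range_fin (⟨i, hi⟩ : Fin (Fintype.card (I n k))) (fun j => c i j * φ j x)
        have e3 := hφ ⟨i, hi⟩ x
        simp only at e2 e3
        rw [e2, e3]
        congr 1
        refine Finset.sum_congr rfl fun j _ => ?_
        have e5 := hc ⟨i, hi⟩ j
        simp only at e5
        rw [hφ, e5]
      rw [e1]
      have e4 := hτ ⟨i, hi⟩
      simp only at e4
      rw [e4]
      exact hpM ⟨i, hi⟩ x hx
    have hcont : Continuous (fun ε : ℝ => ((Fintype.card (I n k)).factorial : ℝ) *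
        ∏ b : I n k, (TT K (ex b) + ε)) := by fun_prop
    have ht := (hcont.tendsto 0).mono_left (nhdsWithin_le_nhds (s := Set.Ioi 0))
    have hfin := ge_of_tendsto ht (eventually_nhdsWithin_of_forall fun ε hε => key ε hε)
    simp only [add_zero] at hfin
    exact hfin

end Pool.Agent.H940R3.Zah
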