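import Pool.Agent.H940R3.Zah.A

/-! Zaharjuta's theorem: convergence, in the case where the Chebyshev constants are bounded below
(adapted from the Task 12 file of the H716BM project) and in the opposite case. -/

set_option autoImplicit false

open MeasureTheory Filter Topology

namespace Pool.Agent.H940R3.Zah

open ZB ZB.Tk12

theorem case1 {n : ℕ} (hn : 1 ≤ n) {L R : ℝ} {T : (Fin n → ℕ) → ℝ} {V : ℕ → ℝ}
    (hlow : ∀ α, Real.exp (-L * ∑ i, (α i : ℝ)) ≤ T α)
    (hsub : ∀ α β, T (α + β) ≤ T α * T β)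
    (hup : ∀ α, T α ≤ Real.exp (R * ∑ i, (α i : ℝ)))
    (hVlow : ∀ k, ∏ b : I n k, T (fun i => (b.1 i : ℕ)) ≤ V k)
    (hVup : ∀ k, V k ≤ ((Fintype.card (I n k)).factorial : ℝ) *
      ∏ b : I n k, T (fun i => (b.1 i : ℕ))) :
    ∃ d : ℝ, Tendsto (fun k : ℕ => V k ^ ((1 : ℝ) / ll n k)) atTop (𝓝 d) := by
  have h6 : T6 := task6
  obtain ⟨c1, c2, c3, c4, c5, c6⟩ := task7
  have hTpos : ∀ α, 0 < T α := fun α => (Real.exp_pos _).trans_le (hlow α)
  set P : ℕ → ℝ := fun k => ∏ b : I n k, T (fun i => (b.1 i : ℕ)) with hPdef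
  have hPpos : ∀ k, 0 < P k := fun k => Finset.prod_pos fun b _ => hTpos _
  have hfpos : ∀ k, (0 : ℝ) < ((Fintype.card (I n k)).factorial : ℝ) := fun k => by
    exact_mod_cast Nat.factorial_pos _
  have hVpos : ∀ k, 0 < V k := fun k => (hPpos k).trans_le (hVlow k)
  -- the two limits
  set f : (Fin n → ℕ) → ℝ := fun α => Real.log (T α) + L * ∑ i, (α i : ℝ) with hf
  have hf0 : ∀ α, 0 ≤ f α := by
    intro α
    have := Real.log_le_log (Real.exp_pos _) (hlow α)
    rw [Real.log_exp] at this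
    simp only [hf]
    linarith
  have hfadd : ∀ α β, f (α + β) ≤ f α + f β := by
    intro α β
    have := Real.log_le_log (hTpos _) (hsub α β)
    rw [Real.log_mul (hTpos α).ne' (hTpos β).ne'] at this
    simp only [hf, Pi.add_apply, Nat.cast_add, Finset.sum_add_distrib]
    linarith
  have hfup : ∀ α, f α ≤ (R + L) * ∑ i, (α i : ℝ) := by
    intro α
    have := Real.log_le_log (hTpos _) (hup α)
    rw [Real.log_exp] at this
    simp only [hf]
    linarith
  obtain ⟨Lam, hLam⟩ := h6 n f (R + L) hfadd hf0 hfup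
  obtain ⟨lz, hlz⟩ := h6 n (fun α => ∑ i, (α i : ℝ)) 1 (by
    intro α β
    simp only [Pi.add_apply, Nat.cast_add, Finset.sum_add_distrib]
    exact le_refl _) (fun α => Finset.sum_nonneg fun i _ => Nat.cast_nonneg _) (by
    intro α; rw [one_mul])
  have hlz' : Tendsto (fun k : ℕ => ll n k / (k : ℝ) ^ (n + 1)) atTop (𝓝 lz) := hlz
  have hnn : (0 : ℝ) < (n : ℝ) ^ n := by
    have : (0:ℝ) < n := by exact_mod_cast hn
    positivity
  have hll_low : ∀ k : ℕ, (k : ℝ) ^ (n + 1) ≤ 2 * (n : ℝ) ^ n * ll n k := by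
    intro k
    have h1 := c2 n k hn
    have h2 := c5 n k hn
    have hk0 : (0 : ℝ) ≤ k := Nat.cast_nonneg k
    calc (k : ℝ) ^ (n + 1) = k * (k : ℝ) ^ n := by rw [pow_succ]; ring
      _ ≤ k * ((n : ℝ) ^ n * Fintype.card (I n k)) := mul_le_mul_of_nonneg_left h2 hk0
      _ = (n : ℝ) ^ n * (k * Fintype.card (I n k)) := by ring
      _ ≤ (n : ℝ) ^ n * (2 * ll n k) := mul_le_mul_of_nonneg_left h1 hnn.le
      _ = 2 * (n : ℝ) ^ n * ll n k := by ring
  have hlzpos : 0 < lz := by
    have h1 : 1 / (2 * (n : ℝ) ^ n) ≤ lz := by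
      apply ge_of_tendsto hlz'
      filter_upwards [eventually_ge_atTop 1] with k hk1
      have hk0 : (0 : ℝ) < k := by exact_mod_cast hk1
      rw [div_le_div_iff₀ (by positivity) (by positivity), one_mul]
      have := hll_low k
      linarith
    exact lt_of_lt_of_le (by positivity) h1
  have hllpos : ∀ k : ℕ, 1 ≤ k → 0 < ll n k := by
    intro k hk1
    have h1 := hll_low k
    have hk0 : (0 : ℝ) < k := by exact_mod_cast hk1
    have h2 : 0 < (k : ℝ) ^ (n + 1) := by positivity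
    by_contra hneg
    push Not at hneg
    nlinarith
  -- log P / ll
  have hlogP : ∀ k, ∑ a : I n k, f (fun i => (a.1 i : ℕ)) = Real.log (P k) + L * ll n k := by
    intro k
    simp only [hf, hPdef]
    rw [Real.log_prod (fun b _ => (hTpos _).ne'), Finset.sum_add_distrib]
    unfold ll
    rw [Finset.mul_sum]
  have hlimP : Tendsto (fun k : ℕ => Real.log (P k) / ll n k) atTop (𝓝 (Lam / lz - L)) := by
    have h1 := (hLam.div hlz' hlzpos.ne').sub_const L
    refine h1.congr' ?_
    filter_upwards [eventually_ge_atTop 1] with k hk1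
    have hk0 : (0 : ℝ) < k := by exact_mod_cast hk1
    have hl := hllpos k hk1
    rw [Pi.div_apply]
    rw [hlogP k]
    field_simp
    ring
  have hlimF : Tendsto (fun k : ℕ => Real.log ((Fintype.card (I n k)).factorial : ℝ) / ll n k)
      atTop (𝓝 0) := by
    have hb : Tendsto (fun k : ℕ => 4 * (n : ℝ) * (Real.log ((k : ℝ) + 1) / ((k : ℝ) + 1)))
        atTop (𝓝 0) := by
      simpa using log_ratio.const_mul (4 * (n : ℝ))
    refine tendsto_of_tendsto_of_tendsto_of_le_of_le' tendsto_const_nhds hb ?_ ?_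
    · filter_upwards [eventually_ge_atTop 1] with k hk1
      apply div_nonneg _ (hllpos k hk1).le
      apply Real.log_nonneg
      exact_mod_cast Nat.one_le_iff_ne_zero.mpr (Nat.factorial_ne_zero _)
    · filter_upwards [eventually_ge_atTop 1] with k hk1
      have hk0 : (1 : ℝ) ≤ k := by exact_mod_cast hk1
      have hl := hllpos k hk1
      rw [div_le_iff₀ hl]
      have hN1 : (1 : ℝ) ≤ (Fintype.card (I n k) : ℝ) := by exact_mod_cast c6 n k
      have hNk : (Fintype.card (I n k) : ℝ) ≤ ((k : ℝ) + 1) ^ n := by exact_mod_cast c1 n k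
      have hlogN : Real.log (Fintype.card (I n k) : ℝ) ≤ n * Real.log ((k : ℝ) + 1) := by
        rw [← Real.log_pow]
        exact Real.log_le_log (by linarith) hNk
      have hlk : 0 ≤ Real.log ((k : ℝ) + 1) := Real.log_nonneg (by linarith)
      have h1 := c2 n k hn
      have hNl : (Fintype.card (I n k) : ℝ) ≤ 4 * ll n k / ((k : ℝ) + 1) := by
        rw [le_div_iff₀ (by linarith)]
        nlinarith
      calc Real.log ((Fintype.card (I n k)).factorial : ℝ)
          ≤ (Fintype.card (I n k) : ℝ) * Real.log (Fintype.card (I n k) : ℝ) := log_fact _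
        _ ≤ (Fintype.card (I n k) : ℝ) * (n * Real.log ((k : ℝ) + 1)) :=
            mul_le_mul_of_nonneg_left hlogN (by linarith)
        _ ≤ (4 * ll n k / ((k : ℝ) + 1)) * (n * Real.log ((k : ℝ) + 1)) :=
            mul_le_mul_of_nonneg_right hNl (mul_nonneg (Nat.cast_nonneg n) hlk)
        _ = 4 * (n : ℝ) * (Real.log ((k : ℝ) + 1) / ((k : ℝ) + 1)) * ll n k := by ring
  have hlimV : Tendsto (fun k : ℕ => Real.log (V k) / ll n k) atTop (𝓝 (Lam / lz - L)) := by
    have hsum : Tendsto (fun k : ℕ => Real.log ((Fintype.card (I n k)).factorial : ℝ) / ll n k +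
        Real.log (P k) / ll n k) atTop (𝓝 (Lam / lz - L)) := by
      simpa using hlimF.add hlimP
    refine tendsto_of_tendsto_of_tendsto_of_le_of_le' hlimP hsum ?_ ?_
    · filter_upwards [eventually_ge_atTop 1] with k hk1
      have hl := hllpos k hk1
      apply div_le_div_of_nonneg_right _ hl.le
      exact Real.log_le_log (hPpos k) (hVlow k)
    · filter_upwards [eventually_ge_atTop 1] with k hk1
      have hl := hllpos k hk1
      rw [← add_div]
      apply div_le_div_of_nonneg_right _ hl.le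
      rw [← Real.log_mul (hfpos k).ne' (hPpos k).ne']
      exact Real.log_le_log (hVpos k) (hVup k)
  refine ⟨Real.exp (Lam / lz - L), ?_⟩
  have h1 := (Real.continuous_exp.tendsto (Lam / lz - L)).comp hlimV
  refine h1.congr fun k => ?_
  simp only [Function.comp]
  rw [Real.rpow_def_of_pos (hVpos k)]
  congr 1
  rw [mul_one_div]

/-- powers -/
lemma T_pow {n : ℕ} {T : (Fin n → ℕ) → ℝ} (hT0 : ∀ α, 0 ≤ T α)
    (hsub : ∀ α β, T (α + β) ≤ T α * T β) (α β : Fin n → ℕ) (j : ℕ) :
    T (j • α + β) ≤ T α ^ j * T β := by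
  induction j with
  | zero => simp
  | succ j ih =>
    have h1 : (j + 1) • α + β = α + (j • α + β) := by
      rw [succ_nsmul]
      abel
    rw [h1]
    refine (hsub _ _).trans ?_
    rw [pow_succ]
    calc T α * T (j • α + β) ≤ T α * (T α ^ j * T β) := mul_le_mul_of_nonneg_left ih (hT0 _)
      _ = _ := by ring

/-- decay deep inside the cone -/
lemma T_deep {n : ℕ} {T : (Fin n → ℕ) → ℝ} {R L : ℝ} (hR : 0 ≤ R) (hT0 : ∀ α, 0 ≤ T α)
    (hsub : ∀ α β, T (α + β) ≤ T α * T β)
    (hup : ∀ α, T α ≤ Real.exp (R * ∑ i, (α i : ℝ))) {α₀ : Fin n → ℕ} {s : ℕ}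
    (hs : s = ∑ i, α₀ i) (hα₀ : T α₀ ≤ Real.exp (-L * s)) {m k : ℕ} {α : Fin n → ℕ}
    (hm : ∀ i, m ≤ α i) (hk : ∑ i, α i ≤ k) :
    T α ≤ Real.exp (-L * (s * (m / s : ℕ))) * Real.exp (R * k) := by
  set j := m / s with hj
  have h1 : ∀ i, j * α₀ i ≤ α i := by
    intro i
    have h2 : α₀ i ≤ s := by
      rw [hs]
      exact Finset.single_le_sum (fun i _ => Nat.zero_le (α₀ i)) (Finset.mem_univ i)
    calc j * α₀ i ≤ j * s := Nat.mul_le_mul_left _ h2
      _ ≤ m := Nat.div_mul_le_self m s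
      _ ≤ α i := hm i
  have h3 : α = j • α₀ + (fun i => α i - j * α₀ i) := by
    funext i
    simp only [Pi.add_apply, Pi.smul_apply, smul_eq_mul]
    have := h1 i
    omega
  have h4 : T α ≤ T α₀ ^ j * T (fun i => α i - j * α₀ i) := by
    conv_lhs => rw [h3]
    exact T_pow hT0 hsub _ _ _
  have h5 : T (fun i => α i - j * α₀ i) ≤ Real.exp (R * k) := by
    refine (hup _).trans ?_
    rw [Real.exp_le_exp]
    apply mul_le_mul_of_nonneg_left _ hR
    have : ∑ i, (α i - j * α₀ i) ≤ k := (Finset.sum_le_sum fun i _ => Nat.sub_le _ _).trans hk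
    exact_mod_cast this
  have h6 : T α₀ ^ j ≤ Real.exp (-L * (s * (j : ℕ))) := by
    calc T α₀ ^ j ≤ (Real.exp (-L * s)) ^ j := pow_le_pow_left₀ (hT0 _) hα₀ _
      _ = _ := by rw [← Real.exp_nat_mul]; ring_nf
  exact h4.trans (mul_le_mul h6 h5 (hT0 _) (Real.exp_pos _).le)

/-- number of exponents deep inside the cone -/
lemma card_deep (n k m : ℕ) (h : 2 * (n * m) ≤ k) :
    (Fintype.card (I n k) : ℝ) ≤ 2 ^ n *
      (Finset.univ.filter (fun a : I n k => ∀ i, m ≤ (a.1 i : ℕ))).card := by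
  obtain ⟨c1, c2, c3, c4, c5, c6⟩ := task7
  have h1 : Fintype.card (I n k) ≤ 2 ^ n * Fintype.card (I n (k - n * m)) :=
    c4 n (k - n * m) k 2 (by norm_num) (by omega)
  have h2 : Fintype.card (I n (k - n * m)) ≤
      (Finset.univ.filter (fun a : I n k => ∀ i, m ≤ (a.1 i : ℕ))).card := by
    rw [← Finset.card_univ]
    have hb : ∀ (a : I n (k - n * m)), ∑ i, ((a.1 i : ℕ) + m) ≤ k := by
      intro a
      have := a.2
      rw [Finset.sum_add_distrib, Finset.sum_const, Finset.card_univ, Fintype.card_fin,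
        smul_eq_mul]
      omega
    have hb2 : ∀ (a : I n (k - n * m)) (i : Fin n), (a.1 i : ℕ) + m < k + 1 := by
      intro a i
      have h3 := Finset.single_le_sum (f := fun i => (a.1 i : ℕ) + m)
        (fun i _ => Nat.zero_le _) (Finset.mem_univ i)
      have h4 := hb a
      exact Nat.lt_succ_of_le (h3.trans h4)
    refine Finset.card_le_card_of_injOn
      (fun a => (⟨fun i => ⟨(a.1 i : ℕ) + m, hb2 a i⟩, by simpa using hb a⟩ : I n k)) ?_ ?_
    · intro a _
      simp
    · intro a _ b _ hab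
      apply Subtype.ext
      funext i
      have h5 := congrArg (fun c : I n k => (c.1 i : ℕ)) hab
      simp only at h5
      apply Fin.ext
      omega
  calc (Fintype.card (I n k) : ℝ) ≤ ((2 ^ n * Fintype.card (I n (k - n * m)) : ℕ) : ℝ) := by
        exact_mod_cast h1
    _ ≤ _ := by
        push_cast
        have : (Fintype.card (I n (k - n * m)) : ℝ) ≤
            ((Finset.univ.filter (fun a : I n k => ∀ i, m ≤ (a.1 i : ℕ))).card : ℝ) := by
          exact_mod_cast h2
        gcongr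

/-- the product -/
lemma P_deep {n : ℕ} {T : (Fin n → ℕ) → ℝ} {R L : ℝ} (hR : 0 ≤ R) (hL : 0 ≤ L)
    (hT0 : ∀ α, 0 ≤ T α) (hsub : ∀ α β, T (α + β) ≤ T α * T β)
    (hup : ∀ α, T α ≤ Real.exp (R * ∑ i, (α i : ℝ))) {α₀ : Fin n → ℕ} {s : ℕ}
    (hs : s = ∑ i, α₀ i) (hα₀ : T α₀ ≤ Real.exp (-L * s)) {m k : ℕ} (h : 2 * (n * m) ≤ k) :
    ∏ b : I n k, T (fun i => (b.1 i : ℕ)) ≤
      Real.exp ((R * k - L * (s * (m / s : ℕ)) / 2 ^ n) * Fintype.card (I n k)) := by
  set A := Finset.univ.filter (fun a : I n k => ∀ i, m ≤ (a.1 i : ℕ)) with hA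
  set q := Real.exp (-L * (s * (m / s : ℕ))) with hq
  have h1 : ∀ b : I n k, T (fun i => (b.1 i : ℕ)) ≤
      (if b ∈ A then q else 1) * Real.exp (R * k) := by
    intro b
    split_ifs with hb
    · rw [hA, Finset.mem_filter] at hb
      exact T_deep hR hT0 hsub hup hs hα₀ hb.2 b.2
    · rw [one_mul]
      refine (hup _).trans ?_
      rw [Real.exp_le_exp]
      apply mul_le_mul_of_nonneg_left _ hR
      exact_mod_cast b.2
  have h2 : ∏ b : I n k, T (fun i => (b.1 i : ℕ)) ≤
      ∏ b : I n k, ((if b ∈ A then q else 1) * Real.exp (R * k)) :=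
    Finset.prod_le_prod (fun b _ => hT0 _) (fun b _ => h1 b)
  refine h2.trans ?_
  rw [Finset.prod_mul_distrib, Finset.prod_const, Finset.card_univ]
  have h3 : ∏ b : I n k, (if b ∈ A then q else 1) = q ^ A.card := by
    rw [Finset.prod_ite, Finset.prod_const, Finset.prod_const_one, mul_one]
    congr 2
    ext b
    simp
  rw [h3, hq, ← Real.exp_nat_mul, ← Real.exp_nat_mul, ← Real.exp_add, Real.exp_le_exp]
  have h4 := card_deep n k m h
  have h5 : (Fintype.card (I n k) : ℝ) / 2 ^ n ≤ A.card := by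
    rw [div_le_iff₀ (by positivity)]
    linarith
  have h6 : 0 ≤ L * (s * (m / s : ℕ) : ℝ) := by positivity
  have h7 := mul_le_mul_of_nonneg_left h5 h6
  have h8 : (R * k - L * (s * (m / s : ℕ)) / 2 ^ n) * (Fintype.card (I n k) : ℝ) =
      Fintype.card (I n k) * (R * k) -
        L * (s * (m / s : ℕ) : ℝ) * ((Fintype.card (I n k) : ℝ) / 2 ^ n) := by
    ring
  rw [h8]
  have h9 : (A.card : ℝ) * (-L * (s * (m / s : ℕ))) = -(L * (s * (m / s : ℕ) : ℝ) * A.card) := by
    ring
  rw [h9]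
  linarith

end Pool.Agent.H940R3.Zah
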