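import Pool.Agent.H940R3.Zah.B

/-! Zaharjuta's theorem when the Chebyshev constants decay faster than exponentially. -/

set_option autoImplicit false

open MeasureTheory Filter Topology

namespace Pool.Agent.H940R3.Zah

open ZB ZB.Tk12

lemma log_ev (n : ℕ) : ∀ᶠ k : ℕ in atTop, (n : ℝ) * Real.log ((k : ℝ) + 1) ≤ k := by
  have h1 := log_ratio.const_mul (2 * (n : ℝ))
  rw [mul_zero] at h1
  filter_upwards [h1.eventually_lt_const one_pos, eventually_ge_atTop 1] with k hk hk1
  have hk0 : (1 : ℝ) ≤ k := by exact_mod_cast hk1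
  rw [← mul_div_assoc, div_lt_one (by linarith)] at hk
  linarith

theorem case2 {n : ℕ} (hn : 1 ≤ n) {R : ℝ} (hR : 0 ≤ R) {T : (Fin n → ℕ) → ℝ} {V : ℕ → ℝ}
    (hT0 : ∀ α, 0 ≤ T α) (hT1 : 1 ≤ T 0)
    (hno : ∀ L : ℝ, 0 ≤ L → ∃ α, T α < Real.exp (-L * ∑ i, (α i : ℝ)))
    (hsub : ∀ α β, T (α + β) ≤ T α * T β)
    (hup : ∀ α, T α ≤ Real.exp (R * ∑ i, (α i : ℝ)))
    (hV0 : ∀ k, 0 ≤ V k)
    (hVup : ∀ k, V k ≤ ((Fintype.card (I n k)).factorial : ℝ) *
      ∏ b : I n k, T (fun i => (b.1 i : ℕ))) :
    Tendsto (fun k : ℕ => V k ^ ((1 : ℝ) / ll n k)) atTop (𝓝 0) := by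
  obtain ⟨c1, c2, c3, c4, c5, c6⟩ := task7
  have hn0 : (0 : ℝ) < n := by exact_mod_cast hn
  have key : ∀ M : ℝ, 0 ≤ M → ∀ᶠ k : ℕ in atTop, V k ^ ((1 : ℝ) / ll n k) ≤ Real.exp (-M) := by
    intro M hM
    set L := (M + R + 1) * (4 * n * 2 ^ n) with hL
    have hL0 : 0 ≤ L := by positivity
    obtain ⟨α₀, hα₀⟩ := hno L hL0
    obtain ⟨s, hs⟩ : ∃ s, s = ∑ i, α₀ i := ⟨_, rfl⟩
    have hs' : (s : ℝ) = ∑ i, (α₀ i : ℝ) := by rw [hs]; push_cast; rfl
    have hα₀' : T α₀ ≤ Real.exp (-L * s) := by rw [hs']; exact hα₀.le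
    have hs1 : 1 ≤ s := by
      by_contra hcon
      have h0 : s = 0 := by omega
      rw [h0] at hs
      have h1 : α₀ = 0 := by
        funext i
        have := Finset.sum_eq_zero_iff.mp hs.symm i (Finset.mem_univ i)
        simpa using this
      rw [h1] at hα₀
      simp at hα₀
      linarith
    filter_upwards [log_ev n, eventually_ge_atTop 1,
      eventually_ge_atTop (4 * n * (1 + s))] with k hlog hk1 hk2
    have hk0 : (1 : ℝ) ≤ k := by exact_mod_cast hk1
    set m := k / (2 * n) with hm
    have h2 : 2 * (n * m) ≤ k := by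
      have := Nat.div_mul_le_self k (2 * n)
      calc 2 * (n * m) = m * (2 * n) := by ring
        _ ≤ k := this
    have h3 := P_deep hR hL0 hT0 hsub hup hs hα₀' h2
    set N : ℝ := (Fintype.card (I n k) : ℝ) with hN
    have hN1 : (1 : ℝ) ≤ N := by rw [hN]; exact_mod_cast c6 n k
    have h4 : (k : ℝ) / (4 * n) ≤ (s : ℝ) * (m / s : ℕ) := by
      have e1 : m < s * (m / s) + s := by
        have := Nat.div_add_mod m s
        have := Nat.mod_lt m hs1
        omega
      have e2 : k < 2 * n * m + 2 * n := by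
        have := Nat.div_add_mod k (2 * n)
        have := Nat.mod_lt k (show 0 < 2 * n by omega)
        rw [← hm] at *
        omega
      have e1' : (m : ℝ) ≤ s * (m / s : ℕ) + s := by exact_mod_cast e1.le
      have e2' : (k : ℝ) ≤ 2 * n * m + 2 * n := by exact_mod_cast e2.le
      have e3 : (4 * n * (1 + s) : ℝ) ≤ k := by exact_mod_cast hk2
      rw [div_le_iff₀ (by positivity)]
      nlinarith
    have h5 : R * k - L * (s * (m / s : ℕ)) / 2 ^ n ≤ -(M + 1) * k := by
      have e1 : (M + R + 1) * k ≤ L * (s * (m / s : ℕ)) / 2 ^ n := by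
        rw [le_div_iff₀ (by positivity), hL]
        rw [div_le_iff₀ (by positivity)] at h4
        have e2 : 0 ≤ (M + R + 1) * 2 ^ n := by positivity
        calc (M + R + 1) * k * 2 ^ n = (M + R + 1) * 2 ^ n * k := by ring
          _ ≤ (M + R + 1) * 2 ^ n * (s * (m / s : ℕ) * (4 * n)) :=
              mul_le_mul_of_nonneg_left h4 e2
          _ = _ := by ring
      linarith
    have h6 : ((Fintype.card (I n k)).factorial : ℝ) ≤ Real.exp (k * N) := by
      have e1 : Real.log ((Fintype.card (I n k)).factorial : ℝ) ≤ k * N := by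
        have hNk : N ≤ ((k : ℝ) + 1) ^ n := by rw [hN]; exact_mod_cast c1 n k
        have hlogN : Real.log N ≤ n * Real.log ((k : ℝ) + 1) := by
          rw [← Real.log_pow]
          exact Real.log_le_log (by linarith) hNk
        calc Real.log ((Fintype.card (I n k)).factorial : ℝ) ≤ N * Real.log N := log_fact _
          _ ≤ N * k := by
              apply mul_le_mul_of_nonneg_left _ (by linarith)
              linarith
          _ = k * N := by ring
      have e2 : (0 : ℝ) < (Fintype.card (I n k)).factorial := by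
        exact_mod_cast Nat.factorial_pos _
      exact (Real.log_le_iff_le_exp e2).mp e1
    have h7 : V k ≤ Real.exp (-M * (k * N)) := by
      refine (hVup k).trans ?_
      calc ((Fintype.card (I n k)).factorial : ℝ) * ∏ b : I n k, T (fun i => (b.1 i : ℕ))
          ≤ Real.exp (k * N) * Real.exp (-(M + 1) * k * N) := by
            apply mul_le_mul h6 _ (Finset.prod_nonneg fun b _ => hT0 _) (Real.exp_pos _).le
            refine h3.trans ?_
            rw [Real.exp_le_exp]
            exact mul_le_mul_of_nonneg_right h5 (by linarith)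
        _ = Real.exp (-M * (k * N)) := by
            rw [← Real.exp_add]
            ring_nf
    have hll : 0 < ll n k := by
      have := c2 n k hn
      rw [← hN] at this
      nlinarith
    have hll2 : ll n k ≤ k * N := c3 n k
    have h8 : V k ≤ Real.exp (-M * ll n k) := by
      refine h7.trans ?_
      rw [Real.exp_le_exp]
      nlinarith
    calc V k ^ ((1 : ℝ) / ll n k) ≤ (Real.exp (-M * ll n k)) ^ ((1 : ℝ) / ll n k) :=
          Real.rpow_le_rpow (hV0 k) h8 (by positivity)
      _ = Real.exp (-M) := by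
          rw [← Real.exp_mul]
          congr 1
          field_simp
  rw [tendsto_order]
  constructor
  · intro a ha
    exact Eventually.of_forall fun k => lt_of_lt_of_le ha (Real.rpow_nonneg (hV0 k) _)
  · intro a ha
    filter_upwards [key (max 0 (1 - Real.log a)) (le_max_left _ _)] with k hk
    refine lt_of_le_of_lt hk ?_
    have h1 : -(max 0 (1 - Real.log a)) < Real.log a := by
      have := le_max_right 0 (1 - Real.log a)
      linarith
    calc Real.exp (-(max 0 (1 - Real.log a))) < Real.exp (Real.log a) := Real.exp_lt_exp.mpr h1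
      _ = a := Real.exp_log ha

end Pool.Agent.H940R3.Zah
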