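import Pool.Agent.H940R3.Zah.C
import Pool.Agent.H940R3.VD.Final

/-! Zaharjuta's theorem: the transfinite diameter of a compact set exists. -/

set_option autoImplicit false

open MeasureTheory Filter Topology

namespace Pool.Agent.H940R3.Zah

open Pool.Agent.H940R3.VD

lemma ll_eq (n k : ℕ) : ZB.ll n k = lk n k := by
  unfold ZB.ll
  rw [lk_eq]
  have := deg_sum n k
  exact_mod_cast this

lemma vdm_E (n k : ℕ) (x : Ix n k → (Fin n → ℂ)) : vdm n k x = (ZB.E x).det := by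
  unfold vdm
  rw [← Matrix.det_transpose]
  rfl

/-- Zaharjuta's theorem -/
theorem zaharjuta {n : ℕ} (hn : 1 ≤ n) {K : Set (Fin n → ℂ)} (hKc : IsCompact K) :
    ∃ δ : ℝ, Tendsto (fun k => maxVdm K k ^ (1 / lk n k)) atTop (𝓝 δ) := by
  rcases K.eq_empty_or_nonempty with hKe | hKne
  · subst hKe
    refine ⟨0, ?_⟩
    have h1 : (fun k => maxVdm (∅ : Set (Fin n → ℂ)) k ^ (1 / lk n k)) =ᶠ[atTop] fun _ => 0 := by
      filter_upwards [eventually_ge_atTop 1] with k hk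
      have hmv : maxVdm (∅ : Set (Fin n → ℂ)) k = 0 := by
        unfold maxVdm
        have : IsEmpty (Ix n k → (∅ : Set (Fin n → ℂ))) := by
          refine ⟨fun f => ?_⟩
          exact (f ⟨fun _ => 0, by simp⟩).2
        exact Real.iSup_of_isEmpty _
      rw [hmv]
      exact Real.zero_rpow (one_div_ne_zero (lk_pos hn hk).ne')
    exact h1.tendsto
  obtain ⟨hT0, hT1, hsub, ⟨R, hR, hup⟩, hk⟩ := t11gen hKc hKne
  have hne : ∀ k, Nonempty (Ix n k → K) := fun k => by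
    obtain ⟨w, hw⟩ := hKne
    exact ⟨fun _ => ⟨w, hw⟩⟩
  have hle : ∀ k, ∀ y : Ix n k → K, ‖vdm n k (fun j => (y j : Fin n → ℂ))‖ ≤
      ((Fintype.card (ZB.I n k)).factorial : ℝ) *
        ∏ b : ZB.I n k, ZB.Task11.TT K (fun i => (b.1 i : ℕ)) := by
    intro k y
    rw [vdm_E]
    exact (hk k).2 _ fun a => (y a).2
  have hVup : ∀ k, maxVdm K k ≤ ((Fintype.card (ZB.I n k)).factorial : ℝ) *
        ∏ b : ZB.I n k, ZB.Task11.TT K (fun i => (b.1 i : ℕ)) := by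
    intro k
    have := hne k
    exact ciSup_le (hle k)
  have hVlow : ∀ k, ∏ b : ZB.I n k, ZB.Task11.TT K (fun i => (b.1 i : ℕ)) ≤
      maxVdm K k := by
    intro k
    obtain ⟨z, hz, hz2⟩ := (hk k).1
    refine hz2.trans ?_
    rw [← vdm_E]
    exact le_ciSup (f := fun y : Ix n k → K => ‖vdm n k (fun j => (y j : Fin n → ℂ))‖)
      ⟨_, by rintro _ ⟨y, rfl⟩; exact hle k y⟩ (fun j => ⟨z j, hz j⟩)
  by_cases hlow : ∃ L : ℝ, 0 ≤ L ∧ ∀ α : Fin n → ℕ,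
      Real.exp (-L * ∑ i, (α i : ℝ)) ≤ ZB.Task11.TT K α
  · obtain ⟨L, hL, hlow⟩ := hlow
    have h1 := case1 hn hlow hsub hup hVlow hVup
    simpa only [ll_eq] using h1
  · push Not at hlow
    have h1 := case2 hn hR hT0 hT1 hlow hsub hup (fun k => maxVdm_nonneg k) hVup
    exact ⟨0, by simpa only [ll_eq] using h1⟩

theorem full {n : ℕ} (hn : 1 ≤ n) {K : Set (Fin n → ℂ)} (hKc : IsCompact K)
    {μ : Measure (Fin n → ℂ)} [IsFiniteMeasure μ] (hμ : μ Kᶜ = 0) :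
    ∃ δ : ℝ, Tendsto (fun k => maxVdm K k ^ (1 / lk n k)) atTop (𝓝 δ) ∧
      (CondR K μ ↔ CondZ μ δ) := by
  obtain ⟨δ, hδ⟩ := zaharjuta hn hKc
  exact ⟨δ, hδ, final hn hKc hμ hδ⟩

end Pool.Agent.H940R3.Zah
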